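import Pool.Agent.Y187.WQ.Stm
import Pool.Agent.H847R2.Kad5.Wlim

/-!
Weak limits of bounded sequences in von Neumann algebras (job WQ-WL).
-/

set_option autoImplicit false

open scoped ComplexOrder InnerProductSpace
open Filter

noncomputable section

namespace Pool.Agent.Y317.WQ

open Pool.Agent.Y187.WQ

theorem t_wl : W_wl := by
  intro H _ _ _ M y r hM hr
  have hr0 : 0 ≤ r := (norm_nonneg _).trans (hr 0)
  obtain ⟨z, hz, hlim⟩ := H770R2.Kad.prove_wlim H ℕ (Filter.hyperfilter ℕ) y r hr0 hr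
  have hU : ((Filter.hyperfilter ℕ : Ultrafilter ℕ) : Filter ℕ) ≤ atTop := by
    have h := Filter.hyperfilter_le_cofinite (α := ℕ)
    rwa [Nat.cofinite_eq_atTop] at h
  refine ⟨Filter.hyperfilter ℕ, z, hU, ?_, hz, hlim⟩
  rw [← M.commutant_commutant, VonNeumannAlgebra.mem_commutant_iff]
  intro T hT
  rw [VonNeumannAlgebra.mem_commutant_iff] at hT
  ext ξ
  refine ext_inner_left ℂ fun η => ?_
  show ⟪η, T (z ξ)⟫_ℂ = ⟪η, z (T ξ)⟫_ℂ
  have h1 := hlim ξ (ContinuousLinearMap.adjoint T η)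
  have h2 := hlim (T ξ) η
  have h3 : (fun n => ⟪ContinuousLinearMap.adjoint T η, y n ξ⟫_ℂ) =
      fun n => ⟪η, y n (T ξ)⟫_ℂ := by
    funext n
    rw [ContinuousLinearMap.adjoint_inner_left]
    have h4 : y n (T ξ) = T (y n ξ) := congrArg (fun A : H →L[ℂ] H => A ξ) (hT (y n) (hM n))
    rw [h4]
  rw [h3, ContinuousLinearMap.adjoint_inner_left] at h1
  exact tendsto_nhds_unique h1 h2

end Pool.Agent.Y317.WQ
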